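import Pool.Agent.N156.PQ.Q

/-!
For all `Δ`: (2) implies (1), and (1) implies that the class number is one. What is left of the conjecture is that (1)
implies one of the three forms. For `D = q₁ q₂` of one of the forms (1) holds exactly if the class number is one.
-/

namespace Pool.Agent.Results.MP_94ab8c_nt.ClassNumberOneGivesPrimes

/-- `F(n) = q₁ n² + q₁ n + (q₁ - q₂)/4`; the division is exact, as `q₁ ≡ q₂ mod 4`. -/
def F (q₁ q₂ n : ℕ) : ℤ := q₁ * (n : ℤ) ^ 2 + q₁ * n + ((q₁ : ℤ) - q₂) / 4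

/-- Condition (1): `|F(n)|` is one or a prime for all integers `0 ≤ n < (√D - 2)/4`, `D = q₁ q₂`. -/
def Cond1 (q₁ q₂ : ℕ) : Prop :=
  ∀ n : ℕ, (n : ℝ) < (√((q₁ * q₂ : ℕ) : ℝ) - 2) / 4 → (F q₁ q₂ n).natAbs = 1 ∨ (F q₁ q₂ n).natAbs.Prime

/-- The forms in condition (2): `D = q₁² s² + 4 q₁`, `D = q₁² s² - 4 q₁` or `D = 4 q₁² s² - q₁`. -/
def Form (q₁ q₂ : ℕ) : Prop :=
  ∃ s : ℤ, ((q₁ * q₂ : ℕ) : ℤ) = q₁ ^ 2 * s ^ 2 + 4 * q₁ ∨ ((q₁ * q₂ : ℕ) : ℤ) = q₁ ^ 2 * s ^ 2 - 4 * q₁ ∨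
    ((q₁ * q₂ : ℕ) : ℤ) = 4 * q₁ ^ 2 * s ^ 2 - q₁

/-- Let `q₁ < q₂` be primes, both `3 mod 4`, with `q₁ q₂ ≡ 5 mod 8`, and let `K = ℚ(√(q₁ q₂))` (a field of degree two
over `ℚ` containing a square root of `q₁ q₂`). Then (2), that is `h = 1` and one of the three forms, implies (1), and
(1) implies `h = 1`. -/
theorem result (q₁ q₂ : ℕ) (h1 : q₁.Prime) (h2 : q₂.Prime) (hlt : q₁ < q₂) (h14 : q₁ % 4 = 3)
    (h24 : q₂ % 4 = 3) (h8 : (q₁ * q₂) % 8 = 5) (K : Type*) [Field K] [NumberField K]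
    (hK : Module.finrank ℚ K = 2) (x : K) (hx : x ^ 2 = ((q₁ * q₂ : ℕ) : K)) :
    (NumberField.classNumber K = 1 ∧ Form q₁ q₂ → Cond1 q₁ q₂) ∧
    (Cond1 q₁ q₂ → NumberField.classNumber K = 1) := by
  have hform : Form q₁ q₂ ↔ Pool.Agent.N156.PQ.Forms q₁ q₂ := by
    unfold Form Pool.Agent.N156.PQ.Forms
    push_cast
    rfl
  constructor
  · rintro ⟨hcl, hf⟩ n hn
    exact Pool.Agent.N156.PQ.dir21 h1 h2 hlt h14 h24 h8 hK hx hcl (hform.mp hf) n hn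
  · intro hc
    exact Pool.Agent.N156.PQ.class_one2 h1 h2 hlt h14 h24 h8 hK hx (Pool.Agent.N156.PQ.cond_int hc)

end Pool.Agent.Results.MP_94ab8c_nt.ClassNumberOneGivesPrimes
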