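import Pool.Agent.N156.PQ.O

/-!
The conjecture holds for `q₁ = 3`: (1) and (2) are equivalent for all `Δ = 3 q₂`.
-/

namespace Pool.Agent.Results.MP_94ab8c_nt.PrimesGiveFormsThree

/-- `F(n) = 3 n² + 3 n + (3 - q₂)/4`; the division is exact, as `q₂ ≡ 3 mod 4`. -/
def F (q₂ n : ℕ) : ℤ := 3 * (n : ℤ) ^ 2 + 3 * n + ((3 : ℤ) - q₂) / 4

/-- Let `q₂ > 3` be a prime, `q₂ ≡ 3 mod 4`, with `D = 3 q₂ ≡ 5 mod 8`, and let `K = ℚ(√D)` (a field of degree two over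
`ℚ` containing a square root of `D`). Then `|F(n)|` is one or a prime for all integers `0 ≤ n < (√D - 2)/4` if and only
if the class number of `K` is one and `D = 9 s² + 12`, `D = 9 s² - 12` or `D = 36 s² - 3` for some integer `s`. -/
theorem result (q₂ : ℕ) (h2 : q₂.Prime) (hlt : 3 < q₂) (h24 : q₂ % 4 = 3) (h8 : (3 * q₂) % 8 = 5)
    (K : Type*) [Field K] [NumberField K] (hK : Module.finrank ℚ K = 2) (x : K) (hx : x ^ 2 = ((3 * q₂ : ℕ) : K)) :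
    (∀ n : ℕ, (n : ℝ) < (√((3 * q₂ : ℕ) : ℝ) - 2) / 4 → (F q₂ n).natAbs = 1 ∨ (F q₂ n).natAbs.Prime) ↔
    (NumberField.classNumber K = 1 ∧
      ∃ s : ℤ, ((3 * q₂ : ℕ) : ℤ) = 3 ^ 2 * s ^ 2 + 4 * 3 ∨ ((3 * q₂ : ℕ) : ℤ) = 3 ^ 2 * s ^ 2 - 4 * 3 ∨
        ((3 * q₂ : ℕ) : ℤ) = 4 * 3 ^ 2 * s ^ 2 - 3) := by
  have hFF : ∀ n, Pool.Agent.N156.PQ.F 3 q₂ n = F q₂ n := by
    intro n
    unfold Pool.Agent.N156.PQ.F F
    push_cast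
    rfl
  have hform : (∃ s : ℤ, ((3 * q₂ : ℕ) : ℤ) = 3 ^ 2 * s ^ 2 + 4 * 3 ∨ ((3 * q₂ : ℕ) : ℤ) = 3 ^ 2 * s ^ 2 - 4 * 3 ∨
        ((3 * q₂ : ℕ) : ℤ) = 4 * 3 ^ 2 * s ^ 2 - 3) ↔ Pool.Agent.N156.PQ.Forms (3 : ℕ) q₂ := by
    unfold Pool.Agent.N156.PQ.Forms
    push_cast
    rfl
  constructor
  · intro h
    have hint := Pool.Agent.N156.PQ.cond_int (q₁ := 3) (q₂ := q₂) (fun n hn => by rw [hFF]; exact h n hn)
    have hf : Pool.Agent.N156.PQ.Forms (3 : ℕ) q₂ :=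
      Pool.Agent.N156.PQ.forms3 h2 hlt h24 h8 (fun n hn => hint n (by exact_mod_cast hn))
    exact ⟨Pool.Agent.N156.PQ.class_one Nat.prime_three h2 hlt (by norm_num) h24 h8 hK hx hf hint, hform.mpr hf⟩
  · rintro ⟨hcl, hf⟩ n hn
    rw [← hFF]
    exact Pool.Agent.N156.PQ.dir21 Nat.prime_three h2 hlt (by norm_num) h24 h8 hK hx hcl (hform.mp hf) n hn

end Pool.Agent.Results.MP_94ab8c_nt.PrimesGiveFormsThree
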